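import Mathlib

set_option autoImplicit false

/-!
Delta-spaces and spaces with nearly point-finite neighbourhood assignments.
-/

namespace Pool.Agent.TH994.DS

open Topology Set

universe u v

/-- `X` is a Delta-space: every decreasing sequence of sets with empty intersection expands to a
decreasing sequence of open sets with empty intersection. -/
def IsDelta (X : Type u) [TopologicalSpace X] : Prop :=
  ∀ D : ℕ → Set X, Antitone D → (⋂ n, D n) = ∅ →
    ∃ V : ℕ → Set X, Antitone V ∧ (∀ n, IsOpen (V n)) ∧ (∀ n, D n ⊆ V n) ∧ (⋂ n, V n) = ∅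

/-- `X` has nearly point-finite neighbourhood assignments: open sets `U n x` containing `x` such that every
point `z`, for some `n`, lies in only finitely many of the sets `U n x`. -/
def NearlyPointFinite (X : Type u) [TopologicalSpace X] : Prop :=
  ∃ U : ℕ → X → Set X, (∀ n x, IsOpen (U n x) ∧ x ∈ U n x) ∧ ∀ z, ∃ n, {x | z ∈ U n x}.Finite

section
variable {X : Type u} [TopologicalSpace X] {Y : Type v} [TopologicalSpace Y]

/-- one may take the assignments decreasing; then the set of `x` is finite from some `n` on. -/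
theorem mono (h : NearlyPointFinite X) :
    ∃ U : ℕ → X → Set X, (∀ n x, IsOpen (U n x) ∧ x ∈ U n x) ∧ (∀ x, Antitone (fun n => U n x)) ∧
      ∀ z, ∃ N, ∀ n, N ≤ n → {x | z ∈ U n x}.Finite := by
  obtain ⟨U, hU, hfin⟩ := h
  refine ⟨fun n x => ⋂ k ∈ Finset.range (n + 1), U k x, ?_, ?_, ?_⟩
  · intro n x
    refine ⟨isOpen_biInter_finset (fun k _ => (hU k x).1), ?_⟩
    simp only [mem_iInter]
    exact fun k _ => (hU k x).2
  · intro x m n hmn z hz
    simp only [mem_iInter, Finset.mem_range] at hz ⊢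
    exact fun k hk => hz k (by omega)
  · intro z
    obtain ⟨N, hN⟩ := hfin z
    refine ⟨N, fun n hn => hN.subset (fun x hx => ?_)⟩
    simp only [mem_ofPred_eq, mem_iInter, Finset.mem_range] at hx ⊢
    exact hx N (by omega)

/-- **the product of a space with nearly point-finite assignments and a Delta-space is a Delta-space.** -/
theorem prod_delta (hX : NearlyPointFinite X) (hY : IsDelta Y) : IsDelta (X × Y) := by
  obtain ⟨U, hU, hUm, hfin⟩ := mono hX
  intro D hD hDe
  have hslice : ∀ x : X, ∃ V : ℕ → Set Y, Antitone V ∧ (∀ n, IsOpen (V n)) ∧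
      (∀ n, {y | (x, y) ∈ D n} ⊆ V n) ∧ (⋂ n, V n) = ∅ := by
    intro x
    refine hY (fun n => {y | (x, y) ∈ D n}) (fun m n hmn y hy => hD hmn hy) ?_
    rw [eq_empty_iff_forall_notMem]
    intro y hy
    rw [mem_iInter] at hy
    have : (x, y) ∈ ⋂ n, D n := mem_iInter.2 hy
    rw [hDe] at this
    exact this
  choose V hVm hVo hVD hVe using hslice
  refine ⟨fun n => ⋃ x, U n x ×ˢ V x n, ?_, ?_, ?_, ?_⟩
  · intro m n hmn p hp
    rw [mem_iUnion] at hp ⊢
    obtain ⟨x, hx⟩ := hp
    exact ⟨x, hUm x hmn hx.1, hVm x hmn hx.2⟩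
  · exact fun n => isOpen_iUnion (fun x => (hU n x).1.prod (hVo x n))
  · rintro n ⟨x, y⟩ hxy
    rw [mem_iUnion]
    exact ⟨x, (hU n x).2, hVD x n hxy⟩
  · rw [eq_empty_iff_forall_notMem]
    rintro ⟨z, w⟩ hzw
    rw [mem_iInter] at hzw
    obtain ⟨N, hN⟩ := hfin z
    have hS := hN N le_rfl
    have hm : ∀ x : X, ∃ m, w ∉ V x m := by
      intro x
      by_contra hcon
      push Not at hcon
      have : w ∈ ⋂ n, V x n := mem_iInter.2 hcon
      rw [hVe x] at this
      exact this
    choose m hm using hm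
    obtain ⟨M, hM⟩ : ∃ M, ∀ x ∈ {x | z ∈ U N x}, m x ≤ M := by
      obtain ⟨M, hM⟩ := (hS.image m).bddAbove
      exact ⟨M, fun x hx => hM (mem_image_of_mem m hx)⟩
    have h1 := hzw (max N M)
    rw [mem_iUnion] at h1
    obtain ⟨x, hx1, hx2⟩ := h1
    have hx3 : x ∈ {x | z ∈ U N x} := hUm x (le_max_left N M) hx1
    exact hm x (hVm x ((hM x hx3).trans (le_max_right N M)) hx2)

theorem delta_of_npf (hX : NearlyPointFinite X) : IsDelta X := by
  have hP : IsDelta PUnit.{1} := by
    intro D hD hDe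
    exact ⟨D, hD, fun n => isOpen_discrete _, fun n => Subset.rfl, hDe⟩
  have h := prod_delta hX hP
  intro D hD hDe
  obtain ⟨V, hVm, hVo, hVD, hVe⟩ := h (fun n => {p | p.1 ∈ D n}) (fun m n hmn p hp => hD hmn hp) (by
    rw [eq_empty_iff_forall_notMem]
    rintro ⟨x, y⟩ hx
    rw [mem_iInter] at hx
    have : x ∈ ⋂ n, D n := mem_iInter.2 hx
    rw [hDe] at this
    exact this)
  refine ⟨fun n => (fun x => (x, PUnit.unit)) ⁻¹' V n, fun m n hmn x hx => hVm hmn hx,
    fun n => (hVo n).preimage (by fun_prop), fun n x hx => hVD n hx, ?_⟩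
  rw [eq_empty_iff_forall_notMem]
  intro x hx
  rw [mem_iInter] at hx
  have : (x, PUnit.unit) ∈ ⋂ n, V n := mem_iInter.2 hx
  rw [hVe] at this
  exact this

/-- strong Eberlein compacta (and all spaces with a continuous injection into the finitely supported
points of a Cantor cube). -/
theorem npf_of_finite_support {Γ : Type v} (e : X → Γ → Bool) (he : Continuous e)
    (hinj : Function.Injective e) (hfin : ∀ x, {γ | e x γ = true}.Finite) : NearlyPointFinite X := by
  refine ⟨fun _ x => {z | ∀ γ ∈ {γ | e x γ = true}, e z γ = true}, ?_, ?_⟩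
  · intro _ x
    refine ⟨?_, fun γ hγ => hγ⟩
    have : {z | ∀ γ ∈ {γ | e x γ = true}, e z γ = true} =
        ⋂ γ ∈ {γ | e x γ = true}, {z | e z γ = true} := by
      ext z; simp
    beta_reduce
    rw [this]
    refine (hfin x).isOpen_biInter (fun γ _ => ?_)
    have h1 : Continuous (fun z => e z γ) := (continuous_apply γ).comp he
    exact (isOpen_discrete {true}).preimage h1
  · intro z
    refine ⟨0, ?_⟩
    have h1 : {S : Set Γ | S ⊆ {γ | e z γ = true}}.Finite := (hfin z).finite_subsets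
    refine Finite.of_finite_image (f := fun x => {γ | e x γ = true}) (h1.subset ?_) ?_
    · rintro _ ⟨x, hx, rfl⟩
      exact hx
    · intro x _ y _ hxy
      apply hinj
      funext γ
      have h2 : (γ ∈ {γ | e x γ = true}) ↔ (γ ∈ {γ | e y γ = true}) := by
        rw [show {γ | e x γ = true} = {γ | e y γ = true} from hxy]
      simp only [mem_ofPred_eq] at h2
      exact Bool.eq_iff_iff.2 h2

/-- preimages under finite-to-one continuous maps (in particular subspaces). -/
theorem npf_comap (h : NearlyPointFinite Y) (f : X → Y) (hf : Continuous f)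
    (hfib : ∀ y, (f ⁻¹' {y}).Finite) : NearlyPointFinite X := by
  obtain ⟨U, hU, hfin⟩ := h
  refine ⟨fun n x => f ⁻¹' U n (f x), fun n x => ⟨(hU n _).1.preimage hf, (hU n _).2⟩, fun z => ?_⟩
  obtain ⟨n, hn⟩ := hfin (f z)
  refine ⟨n, ?_⟩
  have : {x | z ∈ f ⁻¹' U n (f x)} = f ⁻¹' {y | f z ∈ U n y} := rfl
  rw [this]
  exact hn.preimage' (fun y _ => hfib y)

theorem npf_prod (hX : NearlyPointFinite X) (hY : NearlyPointFinite Y) :
    NearlyPointFinite (X × Y) := by
  obtain ⟨U, hU, -, hUf⟩ := mono hX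
  obtain ⟨V, hV, -, hVf⟩ := mono hY
  refine ⟨fun n p => U n p.1 ×ˢ V n p.2,
    fun n p => ⟨(hU n _).1.prod (hV n _).1, (hU n _).2, (hV n _).2⟩, ?_⟩
  rintro ⟨z, w⟩
  obtain ⟨N, hN⟩ := hUf z
  obtain ⟨M, hM⟩ := hVf w
  refine ⟨max N M, ?_⟩
  refine ((hN _ (le_max_left N M)).prod (hM _ (le_max_right N M))).subset ?_
  rintro ⟨x, y⟩ ⟨h1, h2⟩
  exact ⟨h1, h2⟩

/-- a closed `G_δ` subspace and its complement. -/
theorem npf_glue (F : Set X) (O : ℕ → Set X) (hF : IsClosed F) (hO : ∀ n, IsOpen (O n))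
    (hOF : (⋂ n, O n) = F) (h1 : NearlyPointFinite F) (h2 : NearlyPointFinite (Fᶜ : Set X)) :
    NearlyPointFinite X := by
  classical
  obtain ⟨U, hU, -, hUf⟩ := mono h1
  obtain ⟨V, hV, -, hVf⟩ := mono h2
  have hU' : ∀ n (x : F), ∃ W : Set X, IsOpen W ∧ (Subtype.val : F → X) ⁻¹' W = U n x := by
    intro n x
    exact isOpen_induced_iff.1 (hU n x).1
  choose W hWo hW using hU'
  set P : ℕ → X → Set X := fun n x =>
    if hx : x ∈ F then W n ⟨x, hx⟩ ∩ ⋂ k ∈ Finset.range (n + 1), O k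
    else (Subtype.val : (Fᶜ : Set X) → X) '' (V n ⟨x, hx⟩) with hP
  refine ⟨P, ?_, ?_⟩
  · intro n x
    by_cases hx : x ∈ F
    · simp only [hP, hx, dif_pos]
      refine ⟨(hWo n _).inter (isOpen_biInter_finset (fun k _ => hO k)), ?_, ?_⟩
      · have : (⟨x, hx⟩ : F) ∈ (Subtype.val : F → X) ⁻¹' W n ⟨x, hx⟩ := by
          rw [hW]; exact (hU n _).2
        exact this
      · simp only [mem_iInter]
        intro k _
        rw [← hOF, mem_iInter] at hx
        exact hx k
    · simp only [hP, hx, dif_neg, not_false_eq_true]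
      refine ⟨?_, ⟨⟨x, hx⟩, (hV n _).2, rfl⟩⟩
      exact (hF.isOpen_compl.isOpenMap_subtype_val) _ (hV n _).1
  · intro z
    by_cases hz : z ∈ F
    · obtain ⟨N, hN⟩ := hUf ⟨z, hz⟩
      refine ⟨N, ((hN N le_rfl).image Subtype.val).subset ?_⟩
      intro x hx
      simp only [mem_ofPred_eq] at hx
      by_cases hxF : x ∈ F
      · refine ⟨⟨x, hxF⟩, ?_, rfl⟩
        simp only [hP, hxF, dif_pos] at hx
        have : (⟨z, hz⟩ : F) ∈ (Subtype.val : F → X) ⁻¹' W N ⟨x, hxF⟩ := hx.1
        rw [hW] at this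
        exact this
      · simp only [hP, hxF, dif_neg, not_false_eq_true] at hx
        obtain ⟨⟨y, hy⟩, _, hyz⟩ := hx
        subst hyz
        exact absurd hz hy
    · obtain ⟨N, hN⟩ := hVf ⟨z, hz⟩
      have hk : ∃ k, z ∉ O k := by
        by_contra hcon
        push Not at hcon
        apply hz
        rw [← hOF, mem_iInter]
        exact hcon
      obtain ⟨k, hk⟩ := hk
      refine ⟨max N k, ((hN _ (le_max_left N k)).image Subtype.val).subset ?_⟩
      intro x hx
      simp only [mem_ofPred_eq] at hx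
      by_cases hxF : x ∈ F
      · simp only [hP, hxF, dif_pos] at hx
        exfalso
        apply hk
        have h3 := hx.2
        simp only [mem_iInter, Finset.mem_range] at h3
        exact h3 k (by omega)
      · simp only [hP, hxF, dif_neg, not_false_eq_true] at hx
        obtain ⟨⟨y, hy⟩, hyV, hyz⟩ := hx
        subst hyz
        exact ⟨⟨x, hxF⟩, hyV, rfl⟩

/-- countable unions of closed subspaces. -/
theorem npf_union (F : ℕ → Set X) (hF : ∀ k, IsClosed (F k)) (hcov : ∀ x, ∃ k, x ∈ F k)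
    (h : ∀ k, NearlyPointFinite (F k)) : NearlyPointFinite X := by
  classical
  choose U hU hUm hUf using fun k => mono (h k)
  have hU' : ∀ k n (x : F k), ∃ W : Set X, IsOpen W ∧ (Subtype.val : F k → X) ⁻¹' W = U k n x := by
    intro k n x
    exact isOpen_induced_iff.1 (hU k n x).1
  choose W hWo hW using hU'
  set P : ℕ → ℕ → X → Set X := fun n k x => if hx : x ∈ F k then W k n ⟨x, hx⟩ else (F k)ᶜ with hP
  have hPo : ∀ n k x, IsOpen (P n k x) ∧ x ∈ P n k x := by
    intro n k x
    by_cases hx : x ∈ F k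
    · simp only [hP, hx, dif_pos]
      refine ⟨hWo k n _, ?_⟩
      have : (⟨x, hx⟩ : F k) ∈ (Subtype.val : F k → X) ⁻¹' W k n ⟨x, hx⟩ := by
        rw [hW]; exact (hU k n _).2
      exact this
    · simp only [hP, hx, dif_neg, not_false_eq_true]
      exact ⟨(hF k).isOpen_compl, hx⟩
  refine ⟨fun n x => ⋂ k ∈ Finset.range (n + 1), P n k x, ?_, ?_⟩
  · intro n x
    refine ⟨isOpen_biInter_finset (fun k _ => (hPo n k x).1), ?_⟩
    simp only [mem_iInter]
    exact fun k _ => (hPo n k x).2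
  · intro z
    obtain ⟨k, hk⟩ := hcov z
    obtain ⟨N, hN⟩ := hUf k ⟨z, hk⟩
    refine ⟨max N k, ((hN _ (le_max_left N k)).image Subtype.val).subset ?_⟩
    intro x hx
    simp only [mem_ofPred_eq, mem_iInter, Finset.mem_range] at hx
    have h1 := hx k (by omega)
    by_cases hxF : x ∈ F k
    · simp only [hP, hxF, dif_pos] at h1
      have h2 : (⟨z, hk⟩ : F k) ∈ (Subtype.val : F k → X) ⁻¹' W k (max N k) ⟨x, hxF⟩ := h1
      rw [hW] at h2
      exact ⟨⟨x, hxF⟩, h2, rfl⟩
    · simp only [hP, hxF, dif_neg, not_false_eq_true] at h1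
      exact absurd hk h1

/-- point-finite open covers by such subspaces. -/
theorem npf_cover {I : Type v} (O : I → Set X) (hO : ∀ i, IsOpen (O i)) (hcov : ∀ x, ∃ i, x ∈ O i)
    (hpf : ∀ x, {i | x ∈ O i}.Finite) (h : ∀ i, NearlyPointFinite (O i)) : NearlyPointFinite X := by
  choose U hU hUm hUf using fun i => mono (h i)
  choose j hj using hcov
  refine ⟨fun n x => Subtype.val '' (U (j x) n ⟨x, hj x⟩), ?_, ?_⟩
  · intro n x
    exact ⟨((hO (j x)).isOpenMap_subtype_val) _ (hU _ n _).1, ⟨_, (hU _ n _).2, rfl⟩⟩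
  · intro z
    have hN : ∀ i, ∃ N, ∀ hz : z ∈ O i, ∀ n, N ≤ n → {x | (⟨z, hz⟩ : O i) ∈ U i n x}.Finite := by
      intro i
      by_cases hz : z ∈ O i
      · obtain ⟨N, hN⟩ := hUf i ⟨z, hz⟩
        exact ⟨N, fun _ => hN⟩
      · exact ⟨0, fun h => absurd h hz⟩
    choose N hN using hN
    obtain ⟨M, hM⟩ : ∃ M, ∀ i ∈ {i | z ∈ O i}, N i ≤ M := by
      obtain ⟨M, hM⟩ := ((hpf z).image N).bddAbove
      exact ⟨M, fun x hx => hM (mem_image_of_mem N hx)⟩
    refine ⟨M, Finite.subset ((hpf z).biUnion (t := fun i =>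
      {x | ∃ (hz : z ∈ O i) (hx : x ∈ O i), (⟨z, hz⟩ : O i) ∈ U i M ⟨x, hx⟩}) (fun i hi => ?_)) ?_⟩
    · refine ((hN i hi M (hM i hi)).image Subtype.val).subset ?_
      rintro x ⟨hz, hx, hzx⟩
      exact ⟨⟨x, hx⟩, hzx, rfl⟩
    · intro x hx
      obtain ⟨⟨y, hy⟩, hyU, hyz⟩ := hx
      subst hyz
      simp only [mem_iUnion]
      exact ⟨j x, hy, hy, hj x, hyU⟩

/-- countable `T₁` spaces. -/
theorem npf_countable [T1Space X] [Countable X] : NearlyPointFinite X := by
  obtain ⟨f, hf⟩ := Countable.exists_injective_nat X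
  refine ⟨fun n x => {z | f z < n → z = x}, ?_, ?_⟩
  · intro n x
    refine ⟨?_, fun _ => rfl⟩
    have : {z | f z < n → z = x}ᶜ ⊆ f ⁻¹' (Iio n) := by
      intro z hz
      simp only [mem_compl_iff, mem_ofPred_eq, Classical.not_imp] at hz
      exact hz.1
    have h1 : ({z | f z < n → z = x}ᶜ).Finite :=
      ((finite_Iio n).preimage hf.injOn).subset this
    rw [← isClosed_compl_iff]
    exact h1.isClosed
  · intro z
    refine ⟨f z + 1, (finite_singleton z).subset ?_⟩
    intro x hx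
    exact (hx (Nat.lt_succ_self _)).symm

/-- adding countably many points to a closed subspace. -/
theorem npf_add_countable [T1Space X] (F : Set X) (hF : IsClosed F) (hc : (Fᶜ).Countable)
    (h1 : NearlyPointFinite F) : NearlyPointFinite X := by
  have hC : Countable (Fᶜ : Set X) := hc.to_subtype
  have h2 : NearlyPointFinite (Fᶜ : Set X) := npf_countable
  obtain ⟨f, hf⟩ := Countable.exists_injective_nat (Fᶜ : Set X)
  refine npf_glue F (fun n => ((Subtype.val : (Fᶜ : Set X) → X) '' (f ⁻¹' (Iio n)))ᶜ) hF ?_ ?_ h1 h2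
  · intro n
    exact (((finite_Iio n).preimage hf.injOn).image _).isClosed.isOpen_compl
  · ext z
    simp only [mem_iInter, mem_compl_iff, mem_image, mem_preimage, mem_Iio]
    constructor
    · intro h
      by_contra hz
      exact h (f ⟨z, hz⟩ + 1) ⟨⟨z, hz⟩, Nat.lt_succ_self _, rfl⟩
    · rintro hz n ⟨⟨y, hy⟩, _, rfl⟩
      exact hy hz

end

end Pool.Agent.TH994.DS
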